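import Mathlib
import Pool.Agent.KS6_84.Ill.Sym

set_option autoImplicit false

namespace Pool.Agent.Results.MP_26bcd4_gt.OuterExtremePoints

open Set Pool.Agent.KS6_84.Ill

/-- `ℝ^d` -/
abbrev Eu (d : ℕ) := EuclideanSpace ℝ (Fin d)

/-- A convex body: compact, convex, with nonempty interior. -/
def Body {d : ℕ} (K : Set (Eu d)) : Prop := IsCompact K ∧ Convex ℝ K ∧ (interior K).Nonempty

/-- `K` is a cone (pyramid) with base `B` and apex `p`: `B` is a nonempty compact convex set in a
hyperplane `φ = c`, the point `p` is not in this hyperplane, and `K` is the convex hull of `B` and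
`p`. -/
def IsCone {d : ℕ} (K B : Set (Eu d)) (p : Eu d) : Prop :=
  B.Nonempty ∧ IsCompact B ∧ Convex ℝ B ∧ K = convexHull ℝ (insert p B) ∧
    ∃ (φ : Eu d →L[ℝ] ℝ) (c : ℝ), (∀ b ∈ B, φ b = c) ∧ φ p ≠ c

/-- `K` is a centrally symmetric double cone (bipyramid) with base `B` and apices `p`, `-p`: `B` is a
compact convex set with at least two points and with `B = -B` in a hyperplane `φ = 0`, the point `p`
is not in this hyperplane, and `K` is the convex hull of `B`, `p` and `-p`. -/
def IsDoubleCone {d : ℕ} (K B : Set (Eu d)) (p : Eu d) : Prop :=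
  B.Nontrivial ∧ IsCompact B ∧ Convex ℝ B ∧ (∀ b ∈ B, -b ∈ B) ∧
    K = convexHull ℝ (insert p (insert (-p) B)) ∧
    ∃ φ : Eu d →L[ℝ] ℝ, (∀ b ∈ B, φ b = 0) ∧ φ p ≠ 0

theorem double_eq {d : ℕ} {K B : Set (Eu d)} {p : Eu d} (h : IsDoubleCone K B p)
    (hi : (interior K).Nonempty) : Iout K = (K.extremePoints ℝ).encard := by
  obtain ⟨hB, hc, hv, hs, rfl, φ, hb, hp⟩ := h
  rcases lt_or_gt_of_ne hp with h | h
  · have H : DoubleData B p (-φ) :=
      ⟨hc, hv, hs, fun b hb' => by simp [hb b hb'], by simpa using h, hB, hi⟩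
    exact H.Iout_eq
  · have H : DoubleData B p φ := ⟨hc, hv, hs, hb, h, hB, hi⟩
    exact H.Iout_eq

theorem cone_eq {d : ℕ} {K B : Set (Eu d)} {p : Eu d} (h : IsCone K B p)
    (hi : (interior K).Nonempty) : Iout K = (K.extremePoints ℝ).encard := by
  obtain ⟨hB, hc, hv, rfl, φ, c, hb, hp⟩ := h
  rcases lt_or_gt_of_ne hp with h | h
  · have H : ConeData B p (-φ) (-c) := ⟨hc, hv, fun b hb' => by simp [hb b hb'], by simpa using h, hi⟩
    exact H.Iout_eq hB
  · have H : ConeData B p φ c := ⟨hc, hv, hb, h, hi⟩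
    exact H.Iout_eq hB

section construct
variable {d : ℕ}

/-- the first, second and third coordinate vectors and so on -/
noncomputable def e (i : Fin d) : Eu d := EuclideanSpace.single i 1

theorem norm_e (i : Fin d) : ‖(e i : Eu d)‖ = 1 := by simp [e]

/-- the unit vectors in the hyperplane `x 0 = 0` -/
def S (i0 : Fin d) : Set (Eu d) := {x | ‖x‖ = 1 ∧ x i0 = 0}

/-- the vectors `e i`, `i ≠ i0`, and `- e i1` -/
def V0 (i0 i1 : Fin d) : Set (Eu d) := insert (-(e i1)) ((fun i => e i) '' {i | i ≠ i0})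

theorem V0_sub {i0 i1 : Fin d} (h : i1 ≠ i0) : V0 i0 i1 ⊆ S i0 := by
  rintro x (rfl | ⟨i, hi, rfl⟩)
  · exact ⟨by rw [norm_neg, norm_e], by simp [e, h.symm]⟩
  · exact ⟨norm_e i, by simp [e, Ne.symm hi]⟩

theorem V0_card {i0 i1 : Fin d} : (V0 i0 i1).ncard ≤ d := by
  have h1 : (V0 i0 i1).ncard ≤ ((fun i => (e i : Eu d)) '' {i | i ≠ i0}).ncard + 1 :=
    Set.ncard_insert_le _ _
  have h2 : ((fun i => (e i : Eu d)) '' {i | i ≠ i0}).ncard ≤ ({i | i ≠ i0} : Set (Fin d)).ncard :=
    Set.ncard_image_le (Set.toFinite _)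
  have h3 : ({i | i ≠ i0} : Set (Fin d)).ncard = d - 1 := by
    have : ({i | i ≠ i0} : Set (Fin d)) = ({i0} : Set (Fin d))ᶜ := by ext; simp
    rw [this, Set.ncard_compl, Nat.card_eq_fintype_card, Fintype.card_fin, Set.ncard_singleton]
  have h4 : 0 < d := Nat.pos_of_ne_zero (by rintro rfl; exact i0.elim0)
  omega

theorem V0_fin {i0 i1 : Fin d} : (V0 i0 i1).Finite :=
  ((Set.toFinite {i | i ≠ i0}).image _).insert _

theorem S_infinite {i0 i1 i2 : Fin d} (h1 : i1 ≠ i0) (h2 : i2 ≠ i0) (h3 : i1 ≠ i2) :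
    (S i0 : Set (Eu d)).Infinite := by
  set f : ℝ → Eu d := fun t => t • e i1 + Real.sqrt (1 - t ^ 2) • e i2 with hf
  have hinj : InjOn f (Icc 0 1) := by
    intro s _ t _ h
    have := congrArg (fun x : Eu d => x i1) h
    simpa [hf, e, h3] using this
  have hsub : f '' Icc 0 1 ⊆ S i0 := by
    rintro _ ⟨t, ht, rfl⟩
    refine ⟨?_, by simp [hf, e, h1.symm, h2.symm]⟩
    have ho : inner ℝ (e i1 : Eu d) (e i2) = (0:ℝ) := by
      simp [e, EuclideanSpace.inner_single_left, h3]
    have hsq : Real.sqrt (1 - t ^ 2) ^ 2 = 1 - t ^ 2 := Real.sq_sqrt (by nlinarith [ht.1, ht.2])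
    have h5 : ‖f t‖ ^ 2 = 1 := by
      simp only [hf]
      rw [norm_add_sq_real, inner_smul_left, inner_smul_right, ho, norm_smul, norm_smul, norm_e,
        norm_e]
      simp only [Real.norm_eq_abs, mul_one, mul_zero, add_zero, sq_abs, hsq]
      ring
    have h6 := norm_nonneg (f t)
    nlinarith
  exact ((Icc_infinite (zero_lt_one' ℝ)).image hinj).mono hsub

theorem interior_ne {i0 i1 : Fin d} (h : i1 ≠ i0) {K : Set (Eu d)} (hK : Convex ℝ K)
    (h1 : e i0 ∈ K) (h2 : V0 i0 i1 ⊆ K) : (interior K).Nonempty := by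
  have hsub : convexHull ℝ (insert (e i0) (V0 i0 i1)) ⊆ K :=
    convexHull_min (insert_subset h1 h2) hK
  refine Set.Nonempty.mono (interior_mono hsub) ?_
  rw [interior_convexHull_nonempty_iff_affineSpan_eq_top]
  have hne : (insert (e i0) (V0 i0 i1)).Nonempty := insert_nonempty _ _
  rw [AffineSubspace.affineSpan_eq_top_iff_vectorSpan_eq_top_of_nonempty ℝ (Eu d) (Eu d) hne]
  set W := vectorSpan ℝ (insert (e i0) (V0 i0 i1)) with hW
  have m0 : (e i0 : Eu d) ∈ insert (e i0) (V0 i0 i1) := mem_insert _ _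
  have m1 : -(e i1 : Eu d) ∈ insert (e i0) (V0 i0 i1) := mem_insert_of_mem _ (mem_insert _ _)
  have mi : ∀ i, i ≠ i0 → (e i : Eu d) ∈ insert (e i0) (V0 i0 i1) := fun i hi =>
    mem_insert_of_mem _ (mem_insert_of_mem _ ⟨i, hi, rfl⟩)
  have w1 : (e i1 : Eu d) ∈ W := by
    have h5 := vsub_mem_vectorSpan ℝ (mi i1 h) m1
    have h6 : (e i1 : Eu d) = (2:ℝ)⁻¹ • (e i1 -ᵥ (-(e i1))) := by
      rw [vsub_eq_sub]; module
    rw [h6]
    exact W.smul_mem _ h5
  have wi : ∀ i, (e i : Eu d) ∈ W := by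
    intro i
    have hm : (e i : Eu d) ∈ insert (e i0) (V0 i0 i1) := by
      by_cases hi : i = i0
      · rw [hi]; exact m0
      · exact mi i hi
    have h5 := vsub_mem_vectorSpan ℝ hm (mi i1 h)
    have h6 : (e i : Eu d) = (e i -ᵥ e i1) + e i1 := by
      rw [vsub_eq_sub]; abel
    rw [h6]
    exact W.add_mem h5 w1
  rw [eq_top_iff]
  rw [← (EuclideanSpace.basisFun (Fin d) ℝ).toBasis.span_eq, Submodule.span_le]
  rintro _ ⟨i, rfl⟩
  simpa [e] using wi i

/-- the point sets on the unit sphere with `n - 1` points in the hyperplane and the pole -/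
theorem exists_cone {i0 i1 i2 : Fin d} (h1 : i1 ≠ i0) (h2 : i2 ≠ i0) (h3 : i1 ≠ i2) {n : ℕ}
    (hn : d + 1 ≤ n) : ∃ K B : Set (Eu d), Body K ∧ IsCone K B (e i0) ∧
      (K.extremePoints ℝ).encard = n := by
  have h4 : 0 < d := Nat.pos_of_ne_zero (by rintro rfl; exact i0.elim0)
  obtain ⟨V, hV0, hVS, hVn⟩ := (S_infinite h1 h2 h3).exists_superset_ncard_eq (V0_sub h1) V0_fin
    (k := n - 1) ((V0_card).trans (by omega))
  have hVf : V.Finite := Set.finite_of_ncard_ne_zero (by omega)
  set B := convexHull ℝ V with hB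
  set K := convexHull ℝ (insert (e i0) B) with hK
  have hVne : V.Nonempty := (insert_nonempty _ _).mono hV0
  have hBne : B.Nonempty := hVne.mono (subset_convexHull ℝ V)
  have hBc : IsCompact B := hVf.isCompact_convexHull ℝ
  have hBv : Convex ℝ B := convex_convexHull ℝ V
  have hB0 : ∀ b ∈ B, b i0 = 0 := by
    have hc : Convex ℝ {b : Eu d | b i0 = 0} := by
      intro x hx y hy a b _ _ _
      simp only [mem_ofPred_eq] at *
      simp [hx, hy]
    intro b hb
    exact convexHull_min (fun v hv => (hVS hv).2) hc hb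
  have hVB : V ⊆ B := subset_convexHull ℝ V
  have hBK : B ⊆ K := (subset_insert _ _).trans (subset_convexHull ℝ _)
  have heK : e i0 ∈ K := subset_convexHull ℝ _ (mem_insert _ _)
  have hKball : ∀ x ∈ K, ‖x‖ ≤ 1 := by
    have hV1 : V ⊆ Metric.closedBall (0 : Eu d) 1 := fun v hv => by simp [(hVS hv).1]
    have hB1 : B ⊆ Metric.closedBall (0 : Eu d) 1 := convexHull_min hV1 (convex_closedBall _ _)
    have hK1 : K ⊆ Metric.closedBall (0 : Eu d) 1 :=
      convexHull_min (insert_subset (by simp [norm_e]) hB1) (convex_closedBall _ _)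
    intro x hx
    simpa using hK1 hx
  have hext : K.extremePoints ℝ = insert (e i0) V := by
    apply Subset.antisymm
    · exact (ext_cone_subset B (e i0)).trans (insert_subset_insert extremePoints_convexHull_subset)
    · apply insert_subset (mem_ext_of_norm hKball heK (norm_e i0))
      intro v hv
      exact mem_ext_of_norm hKball (hBK (hVB hv)) (hVS hv).1
  refine ⟨K, B, ⟨isCompact_cone hBc hBv hBne _, convex_convexHull ℝ _,
    interior_ne h1 (convex_convexHull ℝ _) heK (hV0.trans (hVB.trans hBK))⟩,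
    ⟨hBne, hBc, hBv, rfl, EuclideanSpace.proj i0, 0, fun b hb => by simpa using hB0 b hb,
      by simp [e]⟩, ?_⟩
  rw [hext, Set.encard_insert_of_notMem, ← hVf.cast_ncard_eq, hVn]
  · norm_cast; omega
  · intro h
    have := (hVS h).2
    simp [e] at this

/-- the unit vectors in the hyperplane `x 0 = 0` with positive coordinate sum -/
def Sp (i0 : Fin d) : Set (Eu d) := {x | ‖x‖ = 1 ∧ x i0 = 0 ∧ 0 < ∑ i, x i}

theorem e_mem_Sp {i0 i : Fin d} (h : i ≠ i0) : e i ∈ Sp i0 :=
  ⟨norm_e i, by simp [e, Ne.symm h], by simp [e]⟩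

theorem Sp_infinite {i0 i1 i2 : Fin d} (h1 : i1 ≠ i0) (h2 : i2 ≠ i0) (h3 : i1 ≠ i2) :
    (Sp i0 : Set (Eu d)).Infinite := by
  set f : ℝ → Eu d := fun t => t • e i1 + Real.sqrt (1 - t ^ 2) • e i2 with hf
  have hinj : InjOn f (Icc 0 1) := by
    intro s _ t _ h
    have := congrArg (fun x : Eu d => x i1) h
    simpa [hf, e, h3] using this
  have hsub : f '' Icc 0 1 ⊆ Sp i0 := by
    rintro _ ⟨t, ht, rfl⟩
    refine ⟨?_, by simp [hf, e, h1.symm, h2.symm], ?_⟩
    · have ho : inner ℝ (e i1 : Eu d) (e i2) = (0:ℝ) := by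
        simp [e, EuclideanSpace.inner_single_left, h3]
      have hsq : Real.sqrt (1 - t ^ 2) ^ 2 = 1 - t ^ 2 := Real.sq_sqrt (by nlinarith [ht.1, ht.2])
      have h5 : ‖f t‖ ^ 2 = 1 := by
        simp only [hf]
        rw [norm_add_sq_real, inner_smul_left, inner_smul_right, ho, norm_smul, norm_smul, norm_e,
          norm_e]
        simp only [Real.norm_eq_abs, mul_one, mul_zero, add_zero, sq_abs, hsq]
        ring
      have h6 := norm_nonneg (f t)
      nlinarith
    · have h7 : ∑ i, (f t) i = t + Real.sqrt (1 - t ^ 2) := by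
        simp [hf, e, Finset.sum_add_distrib]
      rw [h7]
      rcases ht.1.eq_or_lt with h | h
      · rw [← h]; simp
      · have := Real.sqrt_nonneg (1 - t ^ 2)
        linarith
  exact ((Icc_infinite (zero_lt_one' ℝ)).image hinj).mono hsub

/-- centrally symmetric polytopes with `2 n` vertices -/
theorem exists_double {i0 i1 i2 : Fin d} (h1 : i1 ≠ i0) (h2 : i2 ≠ i0) (h3 : i1 ≠ i2) {n : ℕ}
    (hn : d ≤ n) : ∃ K B : Set (Eu d), Body K ∧ (∀ x ∈ K, -x ∈ K) ∧ IsDoubleCone K B (e i0) ∧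
      (K.extremePoints ℝ).encard = (2 * n : ℕ) := by
  have h4 : 0 < d := Nat.pos_of_ne_zero (by rintro rfl; exact i0.elim0)
  set W0 : Set (Eu d) := (fun i => e i) '' {i | i ≠ i0} with hW0
  have hW0S : W0 ⊆ Sp i0 := by
    rintro _ ⟨i, hi, rfl⟩; exact e_mem_Sp hi
  have hW0c : W0.ncard ≤ n - 1 := by
    have h5 : W0.ncard ≤ ({i | i ≠ i0} : Set (Fin d)).ncard := Set.ncard_image_le (Set.toFinite _)
    have h6 : ({i | i ≠ i0} : Set (Fin d)).ncard = d - 1 := by
      have : ({i | i ≠ i0} : Set (Fin d)) = ({i0} : Set (Fin d))ᶜ := by ext; simp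
      rw [this, Set.ncard_compl, Nat.card_eq_fintype_card, Fintype.card_fin, Set.ncard_singleton]
    omega
  obtain ⟨W, hW0W, hWS, hWn⟩ := (Sp_infinite h1 h2 h3).exists_superset_ncard_eq hW0S
    ((Set.toFinite _).image _) hW0c
  have hi1 : (i1 : Fin d) ≠ i2 := h3
  have hd2 : 2 ≤ d := by
    have a1 := i0.isLt
    have a2 := i1.isLt
    have : (i0 : ℕ) ≠ i1 := fun h => h1 (Fin.ext h.symm)
    omega
  have hWf : W.Finite := Set.finite_of_ncard_ne_zero (by omega)
  have hnegf : (-W).Finite := hWf.neg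
  set V : Set (Eu d) := W ∪ -W with hV
  have hVf : V.Finite := hWf.union hnegf
  have hVn : V.ncard = 2 * (n - 1) := by
    have hdisj : Disjoint W (-W) := by
      rw [Set.disjoint_left]
      intro x hx hx'
      have a1 := (hWS hx).2.2
      have a2 := (hWS (show -x ∈ W from hx')).2.2
      simp only [PiLp.neg_apply, Finset.sum_neg_distrib] at a2
      linarith
    rw [hV, Set.ncard_union_eq hdisj hWf hnegf, Set.ncard_neg, hWn]; ring
  have hVS : ∀ v ∈ V, ‖v‖ = 1 ∧ v i0 = 0 := by
    rintro v (hv | hv)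
    · exact ⟨(hWS hv).1, (hWS hv).2.1⟩
    · have := hWS (show -v ∈ W from hv)
      refine ⟨by rw [← norm_neg]; exact this.1, ?_⟩
      have h5 := this.2.1
      simpa using h5
  have hVneg : ∀ v ∈ V, -v ∈ V := by
    rintro v (hv | hv)
    · exact Or.inr (by simpa using hv)
    · exact Or.inl hv
  set B := convexHull ℝ V with hB
  have hVB : V ⊆ B := subset_convexHull ℝ V
  have hBc : IsCompact B := hVf.isCompact_convexHull ℝ
  have hBv : Convex ℝ B := convex_convexHull ℝ V
  have hBneg : ∀ b ∈ B, -b ∈ B := by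
    have hc : Convex ℝ {b : Eu d | -b ∈ B} := by
      intro x hx y hy a b ha hb hab
      have := hBv hx hy ha hb hab
      simp only [mem_ofPred_eq] at *
      convert this using 1
      module
    intro b hb
    have hsub : V ⊆ {b : Eu d | -b ∈ B} := fun v hv => by
      show -v ∈ B
      exact hVB (hVneg v hv)
    exact convexHull_min hsub hc hb
  have hB0 : ∀ b ∈ B, b i0 = 0 := by
    have hc : Convex ℝ {b : Eu d | b i0 = 0} := by
      intro x hx y hy a b _ _ _
      simp only [mem_ofPred_eq] at *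
      simp [hx, hy]
    intro b hb
    exact convexHull_min (fun v hv => (hVS v hv).2) hc hb
  have m1 : (e i1 : Eu d) ∈ V := Or.inl (hW0W ⟨i1, h1, rfl⟩)
  have m1' : -(e i1 : Eu d) ∈ V := hVneg _ m1
  have hBnt : B.Nontrivial := by
    refine ⟨e i1, hVB m1, -(e i1), hVB m1', ?_⟩
    intro h
    have h5 := congrArg (fun x : Eu d => x i1) h
    simp [e] at h5
    linarith
  set K := convexHull ℝ (insert (e i0) (insert (-(e i0)) B)) with hK
  have hBK : B ⊆ K :=
    ((subset_insert _ _).trans (subset_insert _ _)).trans (subset_convexHull ℝ _)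
  have heK : e i0 ∈ K := subset_convexHull ℝ _ (mem_insert _ _)
  have heK' : -(e i0) ∈ K := subset_convexHull ℝ _ (mem_insert_of_mem _ (mem_insert _ _))
  have hV0K : V0 i0 i1 ⊆ K := by
    rintro x (rfl | ⟨i, hi, rfl⟩)
    · exact hBK (hVB m1')
    · exact hBK (hVB (Or.inl (hW0W ⟨i, hi, rfl⟩)))
  have hbody : Body K := by
    have hint := interior_ne h1 (convex_convexHull ℝ _) heK hV0K
    have H : DoubleData B (e i0) (EuclideanSpace.proj i0 : Eu d →L[ℝ] ℝ) :=
      ⟨hBc, hBv, hBneg, fun b hb => by simpa using hB0 b hb, by simp [e], hBnt, hint⟩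
    exact ⟨H.isCompact, convex_convexHull ℝ _, hint⟩
  have hdc : IsDoubleCone K B (e i0) :=
    ⟨hBnt, hBc, hBv, hBneg, rfl, EuclideanSpace.proj i0, fun b hb => by simpa using hB0 b hb,
      by simp [e]⟩
  have hKneg : ∀ x ∈ K, -x ∈ K := by
    have H : DoubleData B (e i0) (EuclideanSpace.proj i0 : Eu d →L[ℝ] ℝ) :=
      ⟨hBc, hBv, hBneg, fun b hb => by simpa using hB0 b hb, by simp [e], hBnt, hbody.2.2⟩
    exact fun x hx => H.symK hx
  have hKball : ∀ x ∈ K, ‖x‖ ≤ 1 := by
    have hV1 : V ⊆ Metric.closedBall (0 : Eu d) 1 := fun v hv => by simp [(hVS v hv).1]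
    have hB1 : B ⊆ Metric.closedBall (0 : Eu d) 1 := convexHull_min hV1 (convex_closedBall _ _)
    have hK1 : K ⊆ Metric.closedBall (0 : Eu d) 1 :=
      convexHull_min (insert_subset (by simp [norm_e]) (insert_subset (by simp [norm_e]) hB1))
        (convex_closedBall _ _)
    intro x hx
    simpa using hK1 hx
  have hext : K.extremePoints ℝ = insert (e i0) (insert (-(e i0)) V) := by
    apply Subset.antisymm
    · exact (ext_dbl_subset B (e i0)).trans
        (insert_subset_insert (insert_subset_insert extremePoints_convexHull_subset))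
    · apply insert_subset (mem_ext_of_norm hKball heK (norm_e i0))
      apply insert_subset (mem_ext_of_norm hKball heK' (by rw [norm_neg, norm_e]))
      intro v hv
      exact mem_ext_of_norm hKball (hBK (hVB hv)) (hVS v hv).1
  refine ⟨K, B, hbody, hKneg, hdc, ?_⟩
  have n0 : -(e i0 : Eu d) ∉ V := by
    intro h
    have := (hVS _ h).2
    simp [e] at this
  have n1 : (e i0 : Eu d) ∉ insert (-(e i0)) V := by
    rintro (h | h)
    · have h5 := congrArg (fun x : Eu d => x i0) h
      simp [e] at h5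
      linarith
    · have := (hVS _ h).2
      simp [e] at this
  rw [hext, Set.encard_insert_of_notMem n1, Set.encard_insert_of_notMem n0, ← hVf.cast_ncard_eq,
    hVn]
  norm_cast; omega

end construct

/-- **Outer illumination.** Let `I^out(K)` be the supremum of the cardinalities of the primitive outer
illuminating sets of `K`.
1. `I^out(K)` is at most the number of extreme points of `K`, for every convex body `K ⊆ ℝ^d`.
2. Equality holds for every cone (pyramid) over any base; so `I^out` of a cone is finite if and only if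
   the cone is a polytope, and then it is the number of vertices.
3. Equality holds for every centrally symmetric double cone (bipyramid) over any base.
4. For `d ≥ 3` and `n ≥ d + 1` the maximum of `I^out` over the convex bodies in `ℝ^d` with exactly
   `n` extreme points (the polytopes with `n` vertices) is `n`.
5. For `d ≥ 3` and `n ≥ d` the maximum of `I^out` over the centrally symmetric convex bodies in `ℝ^d`
   with exactly `2 n` extreme points is `2 n`. -/
theorem result (d : ℕ) :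
    (∀ K : Set (Eu d), Body K → Iout K ≤ (K.extremePoints ℝ).encard) ∧
    (∀ (K B : Set (Eu d)) (p : Eu d), Body K → IsCone K B p →
      Iout K = (K.extremePoints ℝ).encard) ∧
    (∀ (K B : Set (Eu d)) (p : Eu d), Body K → IsDoubleCone K B p →
      Iout K = (K.extremePoints ℝ).encard) ∧
    (3 ≤ d → ∀ n : ℕ, d + 1 ≤ n →
      IsGreatest {m : ℕ∞ | ∃ K : Set (Eu d), Body K ∧ (K.extremePoints ℝ).encard = n ∧ Iout K = m}
        n) ∧
    (3 ≤ d → ∀ n : ℕ, d ≤ n →
      IsGreatest {m : ℕ∞ | ∃ K : Set (Eu d), Body K ∧ (∀ x ∈ K, -x ∈ K) ∧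
        (K.extremePoints ℝ).encard = (2 * n : ℕ) ∧ Iout K = m} (2 * n : ℕ)) := by
  refine ⟨fun K hK => Iout_le hK.1 hK.2.1, fun K B p hK h => cone_eq h hK.2.2,
    fun K B p hK h => double_eq h hK.2.2, fun hd n hn => ⟨?_, ?_⟩, fun hd n hn => ⟨?_, ?_⟩⟩
  · obtain ⟨K, B, hK, hc, he⟩ := exists_cone (d := d) (i0 := ⟨0, by omega⟩) (i1 := ⟨1, by omega⟩)
      (i2 := ⟨2, by omega⟩) (by simp) (by simp) (by simp) hn
    exact ⟨K, hK, he, by rw [cone_eq hc hK.2.2, he]⟩
  · rintro m ⟨K, hK, he, rfl⟩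
    rw [← he]
    exact Iout_le hK.1 hK.2.1
  · obtain ⟨K, B, hK, hs, hc, he⟩ := exists_double (d := d) (i0 := ⟨0, by omega⟩)
      (i1 := ⟨1, by omega⟩) (i2 := ⟨2, by omega⟩) (by simp) (by simp) (by simp) hn
    exact ⟨K, hK, hs, he, by rw [double_eq hc hK.2.2, he]⟩
  · rintro m ⟨K, hK, _, he, rfl⟩
    rw [← he]
    exact Iout_le hK.1 hK.2.1

end Pool.Agent.Results.MP_26bcd4_gt.OuterExtremePoints
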